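import Pool.Agent.Q151.Sp.Types

/-!
# The full assertion of the question for many of the numbers `⌊α P(i)⌋`

Part of a joined theorem of helper138 (with `ZeroTypesRealMultiples`). Let `q ≥ 2`. Outside a set of real numbers of Hausdorff
dimension at most `q / (q + 1 / (q 2 ^ (q - 1)))` (that is `8 / 9` for `q = 2`) every `α > 0` has an `η > 0` such that for all large
`N` and ALL integral polynomials `P` of degree `q` with positive leading coefficient and coefficients of size at most `N ^ η`: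
for at least `N exp (- 4 q √(log N) log log N)` of the `i ≤ N` the full assertion of the question holds for `n = ⌊α P(i)⌋`:
`2 n` has a representation of type `(a, b)` for ALL `a`, `b` with `f₂(a, b) ≤ n`.
-/

set_option autoImplicit false

namespace Pool.Agent.Results.MP_e3f158_nt.AllTypesRealMultiples

open Finset Filter Topology
open Pool.Agent.Q138.PS Pool.Agent.Q151.Sp.Types
open Pool.Agent.Results.MP_e3f158_nt.AllTypesAtOnce (HasRep f₂)

theorem grow (q : ℕ) {η : ℝ} (hη : 0 < η) :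
    ∀ᶠ N : ℕ in atTop, √(L1 (((N ^ (q + 1) : ℕ) : ℝ) + BC)) * L2 (((N ^ (q + 1) : ℕ) : ℝ) + BC) ≤ η * L1 N := by
  have t1 : Tendsto (fun N : ℕ => L1 N) atTop atTop := Real.tendsto_log_atTop.comp tendsto_natCast_atTop_atTop
  set c : ℝ := η / (2 * √((q : ℝ) + 2)) with hc
  have hs : 0 < √((q : ℝ) + 2) := Real.sqrt_pos.2 (by positivity)
  have hc0 : 0 < c := by positivity
  have h2 := (isLittleO_log_rpow_atTop (show (0 : ℝ) < 1 / 2 by norm_num)).bound hc0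
  filter_upwards [t1.eventually h2, it_logs q] with N hN hlogs
  obtain ⟨hBN, e1, e2, -, -⟩ := hlogs
  have p1 : 0 < L1 (N : ℝ) := zero_lt_one.trans_le (L1_ge1 hBN)
  have p2 : 0 < L2 (N : ℝ) := zero_lt_one.trans_le (L2_ge1 hBN)
  have hB : BC ≤ (((N ^ (q + 1) : ℕ) : ℝ) + BC) := by
    have : (0 : ℝ) ≤ ((N ^ (q + 1) : ℕ) : ℝ) := Nat.cast_nonneg _
    linarith
  have p3 : 0 < L2 (((N ^ (q + 1) : ℕ) : ℝ) + BC) := zero_lt_one.trans_le (L2_ge1 hB)
  have h3 : L2 (N : ℝ) ≤ c * √(L1 (N : ℝ)) := by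
    rw [Real.norm_of_nonneg (show 0 ≤ Real.log (L1 (N : ℝ)) from p2.le), Real.norm_of_nonneg (by positivity),
      ← Real.sqrt_eq_rpow] at hN
    exact hN
  have h4 : √(L1 (((N ^ (q + 1) : ℕ) : ℝ) + BC)) ≤ √((q : ℝ) + 2) * √(L1 (N : ℝ)) := by
    rw [← Real.sqrt_mul (by positivity)]
    exact Real.sqrt_le_sqrt e1
  calc √(L1 (((N ^ (q + 1) : ℕ) : ℝ) + BC)) * L2 (((N ^ (q + 1) : ℕ) : ℝ) + BC)
      ≤ (√((q : ℝ) + 2) * √(L1 (N : ℝ))) * (2 * (c * √(L1 (N : ℝ)))) := by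
        gcongr
        exact e2.trans (by gcongr)
    _ = η * (√(L1 (N : ℝ)) * √(L1 (N : ℝ))) := by
        rw [hc]
        field_simp
    _ = η * L1 N := by rw [Real.mul_self_sqrt p1.le]

/-- the weight of the first part -/
noncomputable def G (y : ℝ) : ℝ := Real.exp (√(L1 (y + BC)) * L2 (y + BC))

theorem many1 : ∀ᶠ y : ℕ in atTop, 1 / (2 * G y) * y ≤ cn (Full Set.univ) y := by
  filter_upwards [Pool.Agent.Results.MP_e3f158_nt.AllTypesAtOnce.result,
    tendsto_natCast_atTop_atTop.eventually_ge_atTop BC, grow 0 (show (0 : ℝ) < 1 / 2 by norm_num),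
    tendsto_natCast_atTop_atTop.eventually_ge_atTop (4 : ℝ)] with y hy hB hg h4
  have hXy : (y : ℝ) ≤ y + BC := by
    have := BC_pos
    linarith
  have hy0 : (0 : ℝ) < y := BC_pos.trans_le hB
  have h1 := L1_mono hB hXy
  have h2 := L2_mono hB hXy
  have p2 : 0 < L2 (y : ℝ) := zero_lt_one.trans_le (L2_ge1 hB)
  have e1 : (((y ^ (0 + 1) : ℕ) : ℝ) + BC) = (y : ℝ) + BC := by simp
  rw [e1] at hg
  have h5 : G y ≤ √(y : ℝ) := by
    unfold G
    rw [← Real.le_log_iff_exp_le (by positivity), Real.log_sqrt hy0.le]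
    refine hg.trans (le_of_eq ?_)
    unfold L1
    ring
  have h6 : 2 ≤ √(y : ℝ) := by
    rw [show (2 : ℝ) = √4 by rw [show (4 : ℝ) = 2 ^ 2 by norm_num, Real.sqrt_sq (by norm_num)]]
    exact Real.sqrt_le_sqrt h4
  have hG : 0 < G y := Real.exp_pos _
  have h7 : 1 ≤ 1 / (2 * G y) * y := by
    rw [one_div_mul_eq_div, le_div_iff₀ (by positivity)]
    have h8 := Real.mul_self_sqrt hy0.le
    nlinarith
  have h8 : 1 / G y * y ≤ (y : ℝ) * Real.exp (-(√(Real.log y) * Real.log (Real.log y))) := by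
    rw [Real.exp_neg, one_div, mul_comm]
    have h9 : Real.exp (√(Real.log y) * Real.log (Real.log y)) ≤ G y := by
      unfold G
      refine Real.exp_le_exp.2 ?_
      show √(L1 (y : ℝ)) * L2 (y : ℝ) ≤ _
      gcongr
    gcongr
  have h9 : ({n : ℕ | n ≤ y ∧ ∀ a b : ℕ, f₂ a b ≤ n → HasRep a b (2 * n)}.ncard : ℝ) ≤ cn (Full Set.univ) y + 1 := by
    have e2 : {n : ℕ | n ≤ y ∧ ∀ a b : ℕ, f₂ a b ≤ n → HasRep a b (2 * n)} = {n : ℕ | n ≤ y ∧ Full Set.univ n} := by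
      ext n
      simp only [Set.mem_setOf_eq, Full, Set.mem_univ, true_implies]
    rw [e2]
    exact cn_ge _ _
  have h10 : 1 / G y * y = 1 / (2 * G y) * y + 1 / (2 * G y) * y := by
    field_simp
    ring
  linarith

/-- **Theorem.** -/
theorem result (q : ℕ) (hq : 2 ≤ q) :
    ∃ E : Set ℝ, dimH E ≤ ENNReal.ofReal (q / (q + 1 / ((q : ℝ) * 2 ^ (q - 1)))) ∧ ∀ α : ℝ, 0 < α → α ∉ E →
      ∃ η : ℝ, 0 < η ∧ ∀ᶠ N : ℕ in atTop, ∀ P : Polynomial ℤ, P.natDegree = q → 0 < P.leadingCoeff →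
        (∀ j, |((P.coeff j : ℤ) : ℝ)| ≤ (N : ℝ) ^ η) →
        N * Real.exp (-(4 * q * (√(Real.log N) * Real.log (Real.log N)))) ≤ (count Set.univ α P N : ℝ) := by
  have hB : ∀ y : ℕ, BC ≤ (y : ℝ) + BC := fun y => by
    have : (0 : ℝ) ≤ y := Nat.cast_nonneg y
    linarith
  have hG1 : ∀ y : ℕ, 1 ≤ G y := fun y => by
    unfold G
    have h1 := L2_ge1 (hB y)
    refine Real.one_le_exp ?_
    positivity
  obtain ⟨E1, hE1, hg1⟩ := low_slow (ι := Unit) q hq (fun _ => Full Set.univ) (fun _ y => 1 / (2 * G y))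
    (fun _ y => by have := hG1 y; positivity) (fun _ y => by
      have := hG1 y
      rw [div_le_one (by positivity)]
      linarith) (fun _ a b hab => by
      have hab' : (a : ℝ) + BC ≤ (b : ℝ) + BC := by
        have : (a : ℝ) ≤ b := by exact_mod_cast hab
        linarith
      have h1 := L1_mono (hB a) hab'
      have h2 := L2_mono (hB a) hab'
      have p2 : 0 < L2 ((a : ℝ) + BC) := zero_lt_one.trans_le (L2_ge1 (hB a))
      have h3 : G (a : ℝ) ≤ G (b : ℝ) := by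
        unfold G
        refine Real.exp_le_exp.2 ?_
        gcongr
      have h4 := hG1 a
      show 1 / (2 * G (b : ℝ)) ≤ 1 / (2 * G (a : ℝ))
      gcongr) (fun _ η hη => by
      have hrp : Tendsto (fun N : ℕ => (N : ℝ) ^ (η / 2)) atTop atTop :=
        (tendsto_rpow_atTop (by positivity)).comp tendsto_natCast_atTop_atTop
      filter_upwards [grow q (show 0 < η / 2 by positivity), hrp.eventually_ge_atTop 2, eventually_ge_atTop 1]
        with N hN h2 hN1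
      have hN0 : (0 : ℝ) < N := by exact_mod_cast hN1
      have h3 : G ((N ^ (q + 1) : ℕ) : ℝ) ≤ (N : ℝ) ^ (η / 2) := by
        unfold G
        rw [← Real.le_log_iff_exp_le (by positivity), Real.log_rpow hN0]
        exact hN
      have h4 := hG1 (N ^ (q + 1))
      rw [Real.rpow_neg hN0.le, ← one_div]
      have h5 : (N : ℝ) ^ η = (N : ℝ) ^ (η / 2) * (N : ℝ) ^ (η / 2) := by
        rw [← Real.rpow_add hN0]
        congr 1
        ring
      rw [h5]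
      gcongr) (fun _ => many1)
  refine ⟨E1, hE1, fun α hα hαE => ?_⟩
  obtain ⟨η1, hη1, hN1⟩ := hg1 α hα hαE ()
  refine ⟨η1, hη1, ?_⟩
  filter_upwards [hN1, it_logs q, eventually_ge_atTop 1] with N g1 hlogs hN1
  intro P hdeg hlead hco
  have hNr : (1 : ℝ) ≤ N := by exact_mod_cast hN1
  have hN0 : (0 : ℝ) < N := by linarith
  obtain ⟨hBN, e1, e2, -, -⟩ := hlogs
  have hBN' := hB (N ^ (q + 1))
  have p1 : 1 ≤ L1 (N : ℝ) := L1_ge1 hBN
  have p2 : 1 ≤ L2 (N : ℝ) := L2_ge1 hBN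
  have p3 : 1 ≤ L2 (((N ^ (q + 1) : ℕ) : ℝ) + BC) := L2_ge1 hBN'
  rw [count_eq]
  refine le_trans ?_ (g1 P hdeg hlead hco)
  have hq0 : (2 : ℝ) ≤ q := by exact_mod_cast hq
  have h4 : √(L1 (((N ^ (q + 1) : ℕ) : ℝ) + BC)) ≤ q * √(L1 (N : ℝ)) := by
    have h5 : √((q : ℝ) + 2) ≤ q := by
      rw [Real.sqrt_le_left (by linarith)]
      nlinarith
    calc √(L1 (((N ^ (q + 1) : ℕ) : ℝ) + BC)) ≤ √(((q : ℝ) + 2) * L1 N) := Real.sqrt_le_sqrt e1
      _ = √((q : ℝ) + 2) * √(L1 (N : ℝ)) := Real.sqrt_mul (by positivity) _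
      _ ≤ q * √(L1 (N : ℝ)) := by gcongr
  have h5 : √(L1 (((N ^ (q + 1) : ℕ) : ℝ) + BC)) * L2 (((N ^ (q + 1) : ℕ) : ℝ) + BC) ≤
      2 * q * (√(L1 (N : ℝ)) * L2 N) := by
    calc √(L1 (((N ^ (q + 1) : ℕ) : ℝ) + BC)) * L2 (((N ^ (q + 1) : ℕ) : ℝ) + BC) ≤
          (q * √(L1 (N : ℝ))) * (2 * L2 N) := by gcongr
      _ = _ := by ring
  have hsq : 1 ≤ √(L1 (N : ℝ)) := by
    rw [Real.one_le_sqrt]
    exact p1
  have h6 : 1 ≤ √(L1 (N : ℝ)) * L2 N := by nlinarith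
  have h7 : 4 ≤ 2 * q * (√(L1 (N : ℝ)) * L2 N) := by nlinarith
  have h8 : (4 : ℝ) ≤ Real.exp (2 * q * (√(L1 (N : ℝ)) * L2 N)) := by
    have := Real.add_one_le_exp (2 * q * (√(L1 (N : ℝ)) * L2 N))
    linarith
  have h9 : 4 * G ((N ^ (q + 1) : ℕ) : ℝ) ≤ Real.exp (4 * q * (√(L1 (N : ℝ)) * L2 N)) := by
    have h10 : G ((N ^ (q + 1) : ℕ) : ℝ) ≤ Real.exp (2 * q * (√(L1 (N : ℝ)) * L2 N)) := Real.exp_le_exp.2 h5
    have e3 : Real.exp (4 * q * (√(L1 (N : ℝ)) * L2 N)) =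
        Real.exp (2 * q * (√(L1 (N : ℝ)) * L2 N)) * Real.exp (2 * q * (√(L1 (N : ℝ)) * L2 N)) := by
      rw [← Real.exp_add]
      congr 1
      ring
    rw [e3]
    have := hG1 (N ^ (q + 1))
    gcongr
  show (N : ℝ) * Real.exp (-(4 * q * (√(L1 (N : ℝ)) * L2 N))) ≤ 1 / (2 * G ((N ^ (q + 1) : ℕ) : ℝ)) / 2 * N
  rw [Real.exp_neg]
  have h11 := hG1 (N ^ (q + 1))
  have e4 : 1 / (2 * G ((N ^ (q + 1) : ℕ) : ℝ)) / 2 * N = N * (4 * G ((N ^ (q + 1) : ℕ) : ℝ))⁻¹ := by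
    field_simp
    ring
  rw [e4]
  gcongr
end Pool.Agent.Results.MP_e3f158_nt.AllTypesRealMultiples
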