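import Pool.Agent.Q106.IV.ItW

/-!
# Sums of iterated-index elements of arbitrary random sets near Cramér's model

`el S m` is the `m`-th element `≥ 3` of `S`, the model of the `m`-th prime, and `(el S)^[a + 1] x` is the model of the
`x`-th `a`-prime. `cram n` is the probability `1 / log n` of `n ≥ 3` in Cramér's random model. For any random set `A` of
natural numbers `relEnt cram μ A (ind (Un cram) x)` is the relative entropy of the law of `A ∩ [3, x)` with respect to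
Cramér's model.
-/

set_option autoImplicit false

namespace Pool.Agent.Results.MP_e3f158_nt.InformationThreshold

open MeasureTheory Filter Pool.Agent.Q197.CI Pool.Agent.Q106.IV
open Pool.Agent.Q120.ET (IsRandomSet)
open Pool.Agent.Q120.ME (relEnt ind)
open scoped Topology

/-- `m` has a representation of type `(a, b)` -/
def HasRep (S : Set ℕ) (a b m : ℕ) : Prop :=
  ∃ x y : ℕ, 1 ≤ x ∧ 1 ≤ y ∧ (el S)^[a + 1] x + (el S)^[b + 1] y = m ∧ (el S)^[a + 1] x ≠ (el S)^[b + 1] y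

/-- the numbers `n` for which `2 n` has no representation of type `(a, b)` -/
def Exc (S : Set ℕ) (a b : ℕ) : Set ℕ := {n | ¬ HasRep S a b (2 * n)}

/-- the function `f2` of the question -/
noncomputable def f2 (a b : ℕ) : ℝ :=
  if a = b then
    (if a = 0 then (2 : ℝ) ^ (((a : ℝ) + 1) * (b + 1) * (a + b + 2))
      else (2 : ℝ) ^ (((a : ℝ) + 1) ^ 2 * (2 * a + 3) / a - 2 * a))
  else (2 : ℝ) ^ (((a : ℝ) + 1) * (b + 1) * (a + b + 2) - (a + b - 2))

lemma hasRep_iff {S : Set ℕ} (hS : S.Infinite) (a b m : ℕ) : HasRep S a b m ↔ Q197.IT.IsRep S a b m := by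
  unfold HasRep Q197.IT.IsRep
  simp only [isPr_iff hS]
  constructor
  · rintro ⟨x, y, h1, h2, h3, h4⟩
    exact ⟨_, _, ⟨x, h1, rfl⟩, ⟨y, h2, rfl⟩, h3, h4⟩
  · rintro ⟨_, _, ⟨x, h1, rfl⟩, ⟨y, h2, rfl⟩, h3, h4⟩
    exact ⟨x, y, h1, h2, h3, h4⟩

lemma exc_eq {S : Set ℕ} (hS : S.Infinite) (a b : ℕ) : Exc S a b = Q197.IT.Ex2 S a b := by
  ext n
  exact not_congr (hasRep_iff hS a b (2 * n))

lemma f2_ge {a b s : ℕ} (hab : a + b = s) (hs : 1 ≤ s) : (2 : ℝ) ^ ((s : ℝ) ^ 2 / 2) ≤ f2 a b := by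
  have hs' : (s : ℝ) = a + b := by rw [← hab]; push_cast; ring
  have ha : (0 : ℝ) ≤ a := Nat.cast_nonneg _
  have hb : (0 : ℝ) ≤ b := Nat.cast_nonneg _
  unfold f2
  split_ifs with h1 h2
  · omega
  · refine Real.rpow_le_rpow_of_exponent_le (by norm_num) ?_
    have ha1 : (1 : ℝ) ≤ a := by exact_mod_cast Nat.one_le_iff_ne_zero.2 h2
    have h3 : (b : ℝ) = a := by rw [h1]
    rw [hs', h3]
    have h4 : 2 * ((a : ℝ) + 1) ^ 2 ≤ ((a : ℝ) + 1) ^ 2 * (2 * a + 3) / a := by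
      rw [le_div_iff₀ (by linarith)]
      nlinarith [sq_nonneg ((a : ℝ) + 1)]
    nlinarith
  · refine Real.rpow_le_rpow_of_exponent_le (by norm_num) ?_
    rw [hs']
    have h3 : 0 ≤ (a : ℝ) * b := mul_nonneg ha hb
    have h4 : ((a : ℝ) + b + 1) * (a + b + 2) ≤ ((a : ℝ) + 1) * (b + 1) * (a + b + 2) :=
      mul_le_mul_of_nonneg_right (by nlinarith) (by linarith)
    nlinarith

lemma finite_exceptions {θ : ℝ} (hθ0 : 0 ≤ θ) (hθ1 : θ < 1) {S : Set ℕ} (hU : UpT θ S) (hS : S.Infinite) :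
    {t : ℕ × ℕ × ℕ | f2 t.1 t.2.1 ≤ t.2.2 ∧ ¬ HasRep S t.1 t.2.1 (2 * t.2.2)}.Finite := by
  obtain ⟨c, hc⟩ : ∃ c : ℝ, c = 2 / (1 - θ) := ⟨_, rfl⟩
  have h1θ : 0 < 1 - θ := by linarith
  have hc0 : 0 < c := by rw [hc]; positivity
  have hlim : Tendsto (fun s : ℕ => Real.log (s : ℝ) / s) atTop (𝓝 0) := by
    have h1 : Tendsto (fun x : ℝ => Real.log x / x ^ (1 : ℝ)) atTop (𝓝 0) :=
      (isLittleO_log_rpow_atTop (by norm_num)).tendsto_div_nhds_zero
    refine (h1.comp tendsto_natCast_atTop_atTop).congr (fun X => ?_)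
    simp only [Function.comp]
    rw [Real.rpow_one]
  have key : ∀ᶠ s : ℕ in atTop, ∀ a b : ℕ, a + b = s → ∀ n ∈ Exc S a b, (n : ℝ) < f2 a b := by
    filter_upwards [up_side_t hθ0 hθ1 hU (c := c) (by rw [hc]; exact div_lt_div_of_pos_right (by norm_num) h1θ),
      eventually_ge_atTop 1, hlim.eventually_lt_const (show (0 : ℝ) < 1 / (4 * c) by positivity)] with s h1 h2 h3 a b hab n hn
    rw [exc_eq hS] at hn
    have h4 := h1 a b hab n hn
    refine lt_of_lt_of_le ?_ (f2_ge hab h2)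
    have hs0 : (0 : ℝ) < s := by exact_mod_cast h2
    rw [div_lt_iff₀ hs0] at h3
    rcases Nat.eq_zero_or_pos n with h5 | h5
    · rw [h5, Nat.cast_zero]
      positivity
    · rw [← Real.log_lt_log_iff (by exact_mod_cast h5) (by positivity), Real.log_rpow (by norm_num)]
      refine lt_of_le_of_lt h4 ?_
      unfold Q197.IT.sc1
      have h6 := Real.log_two_gt_d9
      have h7 : c * ((s : ℝ) * Real.log s) < c * (s * (1 / (4 * c) * s)) := by
        have := mul_lt_mul_of_pos_left h3 hs0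
        exact mul_lt_mul_of_pos_left this hc0
      refine h7.trans_le ?_
      have h8 : c * ((s : ℝ) * (1 / (4 * c) * s)) = (s : ℝ) ^ 2 / 4 := by
        field_simp
      rw [h8]
      have h9 : (0 : ℝ) < (s : ℝ) ^ 2 := by positivity
      nlinarith
  obtain ⟨s0, hs0⟩ := eventually_atTop.1 key
  have hfin : (⋃ v ∈ (Finset.range s0 ×ˢ Finset.range s0 : Finset (ℕ × ℕ)),
      (fun n : ℕ => (v.1, v.2, n)) '' (Exc S v.1 v.2)).Finite := by
    refine Set.Finite.biUnion (Finset.finite_toSet _) (fun v _ => ?_)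
    refine Set.Finite.image _ ?_
    rw [exc_eq hS]
    exact ex_finite_t hθ1 hU v.1 v.2
  refine hfin.subset ?_
  rintro ⟨a, b, n⟩ ⟨h1, h2⟩
  simp only at h1 h2
  simp only [Set.mem_iUnion, exists_prop]
  refine ⟨(a, b), ?_, n, h2, rfl⟩
  rw [Finset.mem_product, Finset.mem_range, Finset.mem_range]
  by_contra hcon
  have := hs0 (a + b) (by simp only at hcon; omega) a b rfl n h2
  linarith

lemma infinite_of_count {S : Set ℕ}
    (h : ∀ᶠ n : ℕ in atTop, (n : ℝ) / (2 * Real.log n) ≤ ct S n ∧ (ct S n : ℝ) ≤ 2 * n / Real.log n) : S.Infinite := by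
  classical
  intro hfin
  have h1 : ∀ n, (ct S n : ℝ) ≤ hfin.toFinset.card := by
    intro n
    unfold ct
    refine Nat.cast_le.2 (Finset.card_le_card (fun a ha => ?_))
    rw [Finset.mem_filter] at ha
    rw [Set.Finite.mem_toFinset]
    exact ha.2
  have h2 : Tendsto (fun x : ℝ => Real.log x / x ^ (1 : ℝ)) atTop (𝓝 0) :=
    (isLittleO_log_rpow_atTop (by norm_num)).tendsto_div_nhds_zero
  have h3 := h2.comp (tendsto_natCast_atTop_atTop (R := ℝ))
  obtain ⟨K, hK⟩ : ∃ K : ℝ, K = hfin.toFinset.card + 1 := ⟨_, rfl⟩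
  have hK0 : 0 < K := by rw [hK]; positivity
  obtain ⟨n, h4, h5, h6⟩ := (h.and ((h3.eventually_lt_const (show (0 : ℝ) < 1 / (2 * K) by positivity)).and
    (eventually_ge_atTop 3))).exists
  have hn0 : (0 : ℝ) < n := by exact_mod_cast (show 0 < n by omega)
  have hl := log_gt_one h6
  simp only [Function.comp] at h5
  rw [Real.rpow_one, div_lt_div_iff₀ hn0 (by positivity)] at h5
  have h7 := h4.1.trans (h1 n)
  rw [div_le_iff₀ (by linarith)] at h7
  have h8 : (hfin.toFinset.card : ℝ) * (2 * Real.log n) ≤ K * (2 * Real.log n) :=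
    mul_le_mul_of_nonneg_right (by rw [hK]; linarith) (by linarith)
  linarith

/-- **All types of sums in arbitrary random sets of information `x^θ`, `θ < 1`.** -/
theorem result :
    (∀ θ : ℝ, 0 ≤ θ → θ < 1 →
      ∀ (Ω : Type) [MeasurableSpace Ω] (μ : Measure Ω) [IsProbabilityMeasure μ] (A : Ω → Set ℕ), IsRandomSet A →
        (∀ᶠ x : ℕ in atTop, relEnt cram μ A (ind (Un cram) x) ≤ (x : ℝ) ^ θ) →
        ∀ᵐ ω ∂μ,
          (∀ ε : ℝ, θ < ε → ∀ᶠ m : ℕ in atTop, ∀ a b : ℕ,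
            ((a + b + 2 : ℕ) : ℝ) * Real.log (Real.log m) ≤ (1 - ε) * Real.log m → HasRep (A ω) a b m) ∧
          (∀ a b : ℕ, (Exc (A ω) a b).Finite) ∧
          (∀ c : ℝ, 1 / (1 - θ) < c → ∀ᶠ s : ℕ in atTop, ∀ a b : ℕ, a + b = s →
            ∀ n ∈ Exc (A ω) a b, Real.log n ≤ c * (s * Real.log s)) ∧
          {t : ℕ × ℕ × ℕ | f2 t.1 t.2.1 ≤ t.2.2 ∧ ¬ HasRep (A ω) t.1 t.2.1 (2 * t.2.2)}.Finite) ∧
    ∃ (Ω : Type) (_ : MeasurableSpace Ω) (μ : Measure Ω) (_ : IsProbabilityMeasure μ) (A : Ω → Set ℕ), IsRandomSet A ∧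
      (∀ᶠ x : ℕ in atTop, relEnt cram μ A (ind (Un cram) x) ≤ (x : ℝ)) ∧
      ∀ᵐ ω ∂μ, ∀ a b m : ℕ, ¬ HasRep (A ω) a b m := by
  refine ⟨fun θ h0 h1 Ω _ μ _ A hA hent => ?_, ?_⟩
  · filter_upwards [info_types h0 h1 Ω μ A hA hent, info_count h0 h1 Ω μ A hA hent] with ω hU hct
    have hS := infinite_of_count hct
    refine ⟨fun ε hε => ?_, fun a b => ?_, fun c hc => ?_, finite_exceptions h0 h1 hU hS⟩
    · filter_upwards [hU ε hε] with m hm a b hab
      exact (hasRep_iff hS a b m).2 (hm a b hab)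
    · rw [exc_eq hS]
      exact ex_finite_t h1 hU a b
    · filter_upwards [up_side_t h0 h1 hU hc] with s hs a b hab n hn
      rw [exc_eq hS] at hn
      exact hs a b hab n hn
  · obtain ⟨Ω, i1, μ, i2, A, hA, hent, hfree⟩ := delete_set cram_mem (Set.univ)
    refine ⟨Ω, i1, μ, i2, A, hA, ?_, ?_⟩
    · filter_upwards [cost_univ cram_le] with x hx
      refine (hent x).trans (le_of_eq_of_le ?_ hx)
      refine Finset.sum_congr ?_ (fun _ _ => rfl)
      ext N
      simp only [Finset.mem_filter]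
    · filter_upwards [hfree] with ω hω a b m
      have h1 : A ω = ∅ := by
        ext n
        simp only [Set.mem_empty_iff_false, iff_false]
        exact fun hn => absurd (Set.mem_univ n) (hω n hn)
      have h2 : ∀ k : ℕ, el (A ω) k = 0 := by
        intro k
        rw [h1]
        unfold el
        simp
      rintro ⟨x, y, -, -, -, h3⟩
      apply h3
      rw [Function.iterate_succ_apply', Function.iterate_succ_apply', h2, h2]

end Pool.Agent.Results.MP_e3f158_nt.InformationThreshold
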