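import Pool.Agent.Q197.IT.Thresh

/-!
# The thresholds of all types in Cramér's random model

`A` is Cramér's random model of the primes: the events `n ∈ A`, `n ≥ 3`, are independent with the probabilities
`1 / log n`; `el S m` is the `m`-th element `≥ 3` of `S`, the model of the `m`-th prime, and `(el S)^[a + 1] x` is the
model of the `x`-th `a`-prime. Let `L (a, b)` be the largest `n` for which `2 n` has no representation of type `(a, b)`.
Almost surely `L (a, b)` is finite for all types and `log L (a, b)` is asymptotic to `(a + b) log (a + b)` when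
`a + b → ∞`. So the assertion of the question, with the threshold `f2 (a, b)`, has at most finitely many exceptions
`(a, b, n)`.
-/

set_option autoImplicit false

namespace Pool.Agent.Results.MP_e3f158_nt.ThresholdLaw

open MeasureTheory Filter Pool.Agent.Q120.MF Pool.Agent.Q197.CI
open scoped Topology

/-- `m` has a representation of type `(a, b)` -/
def HasRep (S : Set ℕ) (a b m : ℕ) : Prop :=
  ∃ x y : ℕ, 1 ≤ x ∧ 1 ≤ y ∧ (el S)^[a + 1] x + (el S)^[b + 1] y = m ∧ (el S)^[a + 1] x ≠ (el S)^[b + 1] y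

/-- the numbers `n` for which `2 n` has no representation of type `(a, b)` -/
def Exc (S : Set ℕ) (a b : ℕ) : Set ℕ := {n | ¬ HasRep S a b (2 * n)}

/-- the function `f2` of the question -/
noncomputable def f2 (a b : ℕ) : ℝ :=
  if a = b then
    (if a = 0 then (2 : ℝ) ^ (((a : ℝ) + 1) * (b + 1) * (a + b + 2))
      else (2 : ℝ) ^ (((a : ℝ) + 1) ^ 2 * (2 * a + 3) / a - 2 * a))
  else (2 : ℝ) ^ (((a : ℝ) + 1) * (b + 1) * (a + b + 2) - (a + b - 2))

lemma exc_eq {S : Set ℕ} (hS : S.Infinite) (a b : ℕ) : Exc S a b = Q197.IT.Ex2 S a b := by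
  ext n
  show ¬ HasRep S a b (2 * n) ↔ ¬ Q197.IT.IsRep S a b (2 * n)
  refine not_congr ?_
  unfold HasRep Q197.IT.IsRep
  simp only [isPr_iff hS]
  constructor
  · rintro ⟨x, y, h1, h2, h3, h4⟩
    exact ⟨_, _, ⟨x, h1, rfl⟩, ⟨y, h2, rfl⟩, h3, h4⟩
  · rintro ⟨_, _, ⟨x, h1, rfl⟩, ⟨y, h2, rfl⟩, h3, h4⟩
    exact ⟨x, y, h1, h2, h3, h4⟩

lemma f2_ge {a b s : ℕ} (hab : a + b = s) (hs : 1 ≤ s) : (2 : ℝ) ^ ((s : ℝ) ^ 2 / 2) ≤ f2 a b := by
  have hs' : (s : ℝ) = a + b := by rw [← hab]; push_cast; ring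
  have ha : (0 : ℝ) ≤ a := Nat.cast_nonneg _
  have hb : (0 : ℝ) ≤ b := Nat.cast_nonneg _
  unfold f2
  split_ifs with h1 h2
  · omega
  · refine Real.rpow_le_rpow_of_exponent_le (by norm_num) ?_
    have ha1 : (1 : ℝ) ≤ a := by exact_mod_cast Nat.one_le_iff_ne_zero.2 h2
    have h3 : (b : ℝ) = a := by rw [h1]
    rw [hs', h3]
    have h4 : 2 * ((a : ℝ) + 1) ^ 2 ≤ ((a : ℝ) + 1) ^ 2 * (2 * a + 3) / a := by
      rw [le_div_iff₀ (by linarith)]
      nlinarith [sq_nonneg ((a : ℝ) + 1)]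
    nlinarith
  · refine Real.rpow_le_rpow_of_exponent_le (by norm_num) ?_
    rw [hs']
    have h3 : 0 ≤ (a : ℝ) * b := mul_nonneg ha hb
    have h4 : ((a : ℝ) + b + 1) * (a + b + 2) ≤ ((a : ℝ) + 1) * (b + 1) * (a + b + 2) :=
      mul_le_mul_of_nonneg_right (by nlinarith) (by linarith)
    nlinarith

lemma finite_exceptions {S : Set ℕ} (hU : Q197.IT.Up S) (hS : S.Infinite) :
    {t : ℕ × ℕ × ℕ | f2 t.1 t.2.1 ≤ t.2.2 ∧ ¬ HasRep S t.1 t.2.1 (2 * t.2.2)}.Finite := by
  have hlim : Tendsto (fun s : ℕ => Real.log (s : ℝ) / s) atTop (𝓝 0) := by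
    have h1 : Tendsto (fun x : ℝ => Real.log x / x ^ (1 : ℝ)) atTop (𝓝 0) :=
      (isLittleO_log_rpow_atTop (by norm_num)).tendsto_div_nhds_zero
    refine (h1.comp tendsto_natCast_atTop_atTop).congr (fun X => ?_)
    simp only [Function.comp]
    rw [Real.rpow_one]
  have key : ∀ᶠ s : ℕ in atTop, ∀ a b : ℕ, a + b = s → ∀ n ∈ Exc S a b, (n : ℝ) < f2 a b := by
    filter_upwards [Q197.IT.up_side hU (ε := 1) one_pos le_rfl, eventually_ge_atTop 1,
      hlim.eventually_lt_const (show (0 : ℝ) < 1 / 8 by norm_num)] with s h1 h2 h3 a b hab n hn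
    rw [exc_eq hS] at hn
    have h4 := h1 a b hab n hn
    refine lt_of_lt_of_le ?_ (f2_ge hab h2)
    have hs0 : (0 : ℝ) < s := by exact_mod_cast h2
    rw [div_lt_iff₀ hs0] at h3
    rcases Nat.eq_zero_or_pos n with h5 | h5
    · rw [h5, Nat.cast_zero]
      positivity
    · rw [← Real.log_lt_log_iff (by exact_mod_cast h5) (by positivity), Real.log_rpow (by norm_num)]
      refine lt_of_le_of_lt h4 ?_
      unfold Q197.IT.sc1
      have h6 := Real.log_two_gt_d9
      have h7 : (1 + 1) * ((s : ℝ) * Real.log s) < (1 + 1) * (s * (1 / 8 * s)) := by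
        have := mul_lt_mul_of_pos_left h3 hs0
        linarith
      refine h7.trans_le ?_
      have h8 : (0 : ℝ) < (s : ℝ) ^ 2 := by positivity
      nlinarith
  obtain ⟨s0, hs0⟩ := eventually_atTop.1 key
  have hfin : (⋃ v ∈ (Finset.range s0 ×ˢ Finset.range s0 : Finset (ℕ × ℕ)),
      (fun n : ℕ => (v.1, v.2, n)) '' (Exc S v.1 v.2)).Finite := by
    refine Set.Finite.biUnion (Finset.finite_toSet _) (fun v _ => ?_)
    refine Set.Finite.image _ ?_
    rw [exc_eq hS]
    exact Q197.IT.ex_finite hU v.1 v.2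
  refine hfin.subset ?_
  rintro ⟨a, b, n⟩ ⟨h1, h2⟩
  simp only at h1 h2
  simp only [Set.mem_iUnion, exists_prop]
  refine ⟨(a, b), ?_, n, h2, rfl⟩
  rw [Finset.mem_product, Finset.mem_range, Finset.mem_range]
  by_contra hcon
  have := hs0 (a + b) (by simp only at hcon; omega) a b rfl n h2
  linarith

/-- **The law of the thresholds.** -/
theorem result :
    (∃ (Ω : Type) (_ : MeasurableSpace Ω) (μ : Measure Ω) (A : Ω → Set ℕ), IsProbabilityMeasure μ ∧ IsCramer μ A) ∧
    ∀ (Ω : Type) [MeasurableSpace Ω] (μ : Measure Ω) [IsProbabilityMeasure μ] (A : Ω → Set ℕ), IsCramer μ A →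
      ∀ᵐ ω ∂μ,
        -- every type represents all large even numbers
        (∀ a b : ℕ, (Exc (A ω) a b).Finite) ∧
        -- the largest exceptions
        Tendsto (fun v : ℕ × ℕ => Real.log ((sSup (Exc (A ω) v.1 v.2) : ℕ) : ℝ) /
          (((v.1 : ℝ) + v.2) * Real.log ((v.1 : ℝ) + v.2))) cofinite (𝓝 1) ∧
        -- the assertion of the question, with finitely many exceptions
        {t : ℕ × ℕ × ℕ | f2 t.1 t.2.1 ≤ t.2.2 ∧ ¬ HasRep (A ω) t.1 t.2.1 (2 * t.2.2)}.Finite := by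
  refine ⟨⟨_, _, cramerMeasure, cramerSet, inferInstance, isCramer⟩, ?_⟩
  intro Ω _ μ _ A hA
  filter_upwards [ct_law hA, Q197.IT.upper hA, ae_infinite hA] with ω hL hU hS
  refine ⟨fun a b => ?_, ?_, finite_exceptions hU hS⟩
  · rw [exc_eq hS]
    exact Q197.IT.ex_finite hU a b
  · have := Q197.IT.thresh hL hU
    refine this.congr (fun v => ?_)
    rw [exc_eq hS]

end Pool.Agent.Results.MP_e3f158_nt.ThresholdLaw
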