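import Pool.Agent.Q151.Sp.Types
import Pool.Agent.Results.MP_e3f158_nt.UniformTypesAZero

/-!
# The assertion of the question for all types with `a = 0` or `b = 0` for many of the numbers `⌊α P(i)⌋`

Part of a joined theorem of helper138 (with `AllTypesRealMultiples`). There is `c > 0` such that the following holds. Let `q ≥ 2`.
Outside a set of real numbers of Hausdorff dimension at most `q / (q + 1 / (q 2 ^ (q - 1)))` (that is `8 / 9` for `q = 2`) every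
`α > 0` has an `η > 0` such that for all large `N` and ALL integral polynomials `P` of degree `q` with positive leading coefficient
and coefficients of size at most `N ^ η`: for at least `c N / log log N` of the `i ≤ N` the number `2 n`, `n = ⌊α P(i)⌋`, has a
representation of type `(a, b)` for ALL `a`, `b` with `a = 0` or `b = 0` and `f₂(a, b) ≤ n`.
-/

set_option autoImplicit false

namespace Pool.Agent.Results.MP_e3f158_nt.ZeroTypesRealMultiples

open Finset Filter Topology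
open Pool.Agent.Q138.PS Pool.Agent.Q151.Sp.Types
open Pool.Agent.Results.MP_e3f158_nt.AllTypesAtOnce (HasRep f₂)

theorem many2 : ∃ κ : ℝ, 0 < κ ∧ κ ≤ 1 ∧
    ∀ᶠ y : ℕ in atTop, κ / L2 ((y : ℝ) + BC) * y ≤ cn (Full {s | s.1 = 0 ∨ s.2 = 0}) y := by
  obtain ⟨-, c, hc, h⟩ := Pool.Agent.Results.MP_e3f158_nt.UniformTypesAZero.result
  refine ⟨min (c / 2) 1, by positivity, min_le_right _ _, ?_⟩
  filter_upwards [h, tendsto_natCast_atTop_atTop.eventually_ge_atTop BC, log_small 0 1 (show (0 : ℝ) < c / 2 by positivity)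
    (show (0 : ℝ) < 1 / 2 by norm_num), tendsto_natCast_atTop_atTop.eventually_ge_atTop (4 : ℝ)] with y hy hB hs h4
  have hXy : (y : ℝ) ≤ y + BC := by
    have := BC_pos
    linarith
  have hy0 : (0 : ℝ) < y := BC_pos.trans_le hB
  have hB' : BC ≤ (y : ℝ) + BC := hB.trans hXy
  have h2 := L2_mono hB hXy
  have p2 : 0 < L2 (y : ℝ) := zero_lt_one.trans_le (L2_ge1 hB)
  have p3 : 0 < L2 ((y : ℝ) + BC) := zero_lt_one.trans_le (L2_ge1 hB')
  have p4 : 0 < L1 ((y : ℝ) + BC) := zero_lt_one.trans_le (L1_ge1 hB')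
  have e1 : (((y ^ (0 + 1) : ℕ) : ℝ) + BC) = (y : ℝ) + BC := by simp
  rw [e1, pow_one] at hs
  have h5 : 1 ≤ c / 2 / L2 ((y : ℝ) + BC) * y := by
    have h6 : c / 2 / L1 ((y : ℝ) + BC) ≤ c / 2 / L2 ((y : ℝ) + BC) := by
      have := L2_le hB'
      gcongr
    have h7 : (y : ℝ) ^ (-(1 / 2) : ℝ) * y = √(y : ℝ) := by
      rw [Real.sqrt_eq_rpow]
      nth_rewrite 2 [← Real.rpow_one (y : ℝ)]
      rw [← Real.rpow_add hy0]
      norm_num
    have h8 : (1 : ℝ) ≤ √(y : ℝ) := by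
      rw [Real.one_le_sqrt]
      linarith
    calc (1 : ℝ) ≤ (y : ℝ) ^ (-(1 / 2) : ℝ) * y := by rw [h7]; exact h8
      _ ≤ c / 2 / L2 ((y : ℝ) + BC) * y := by
        gcongr
        exact hs.trans h6
  have h6 : c / L2 ((y : ℝ) + BC) * y ≤ c * (y / Real.log (Real.log y)) := by
    calc c / L2 ((y : ℝ) + BC) * y ≤ c / L2 (y : ℝ) * y := by gcongr
      _ = c * (y / L2 (y : ℝ)) := by ring
  have h7 : ({n : ℕ | n ≤ y ∧ ∀ a b : ℕ, a = 0 ∨ b = 0 →
      Pool.Agent.Results.MP_e3f158_nt.UniformTypesAZero.f₂ a b ≤ n →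
      Pool.Agent.Results.MP_e3f158_nt.UniformTypesAZero.HasRep a b (2 * n)}.ncard : ℝ) ≤
      cn (Full {s | s.1 = 0 ∨ s.2 = 0}) y + 1 := cn_ge (Full {s | s.1 = 0 ∨ s.2 = 0}) y
  have h8 : min (c / 2) 1 / L2 ((y : ℝ) + BC) * y ≤ c / 2 / L2 ((y : ℝ) + BC) * y := by
    gcongr
    exact min_le_left _ _
  have h9 : c / L2 ((y : ℝ) + BC) * y = c / 2 / L2 ((y : ℝ) + BC) * y + c / 2 / L2 ((y : ℝ) + BC) * y := by ring
  linarith

/-- **Theorem.** -/
theorem result :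
    ∃ c : ℝ, 0 < c ∧ ∀ q : ℕ, 2 ≤ q →
    ∃ E : Set ℝ, dimH E ≤ ENNReal.ofReal (q / (q + 1 / ((q : ℝ) * 2 ^ (q - 1)))) ∧ ∀ α : ℝ, 0 < α → α ∉ E →
      ∃ η : ℝ, 0 < η ∧ ∀ᶠ N : ℕ in atTop, ∀ P : Polynomial ℤ, P.natDegree = q → 0 < P.leadingCoeff →
        (∀ j, |((P.coeff j : ℤ) : ℝ)| ≤ (N : ℝ) ^ η) →
        c * (N / Real.log (Real.log N)) ≤ (count {s | s.1 = 0 ∨ s.2 = 0} α P N : ℝ) := by
  obtain ⟨κ, hκ, hκ1, h⟩ := many2
  refine ⟨κ / 4, by positivity, fun q hq => ?_⟩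
  have hB : ∀ y : ℕ, BC ≤ (y : ℝ) + BC := fun y => by
    have : (0 : ℝ) ≤ y := Nat.cast_nonneg y
    linarith
  obtain ⟨E2, hE2, hg2⟩ := low_slow (ι := Unit) q hq (fun _ => Full {s | s.1 = 0 ∨ s.2 = 0})
    (fun _ y => κ / L2 ((y : ℝ) + BC))
    (fun _ y => by
      have := L2_ge1 (hB y)
      positivity) (fun _ y => by
      have h1 := L2_ge1 (hB y)
      rw [div_le_one (by positivity)]
      linarith) (fun _ a b hab => by
      have hab' : (a : ℝ) + BC ≤ (b : ℝ) + BC := by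
        have : (a : ℝ) ≤ b := by exact_mod_cast hab
        linarith
      have h2 := L2_mono (hB a) hab'
      have p2 : 0 < L2 ((a : ℝ) + BC) := zero_lt_one.trans_le (L2_ge1 (hB a))
      show κ / L2 ((b : ℝ) + BC) ≤ κ / L2 ((a : ℝ) + BC)
      gcongr) (fun _ η hη => by
      filter_upwards [log_small q 1 hκ hη] with N hN
      refine hN.trans ?_
      rw [pow_one]
      have hBN := hB (N ^ (q + 1))
      have h2 := L2_ge1 hBN
      have h4 := L2_le hBN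
      gcongr) (fun _ => h)
  refine ⟨E2, hE2, fun α hα hαE => ?_⟩
  obtain ⟨η2, hη2, hN2⟩ := hg2 α hα hαE ()
  refine ⟨η2, hη2, ?_⟩
  filter_upwards [hN2, it_logs q, eventually_ge_atTop 1] with N g2 hlogs hN1
  intro P hdeg hlead hco
  have hNr : (1 : ℝ) ≤ N := by exact_mod_cast hN1
  have hN0 : (0 : ℝ) < N := by linarith
  obtain ⟨hBN, e1, e2, -, -⟩ := hlogs
  have hBN' := hB (N ^ (q + 1))
  have p1 : 1 ≤ L1 (N : ℝ) := L1_ge1 hBN
  have p2 : 1 ≤ L2 (N : ℝ) := L2_ge1 hBN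
  have p3 : 1 ≤ L2 (((N ^ (q + 1) : ℕ) : ℝ) + BC) := L2_ge1 hBN'
  rw [count_eq]
  refine le_trans ?_ (g2 P hdeg hlead hco)
  show κ / 4 * (N / L2 (N : ℝ)) ≤ κ / L2 (((N ^ (q + 1) : ℕ) : ℝ) + BC) / 2 * N
  have h3 : κ / (2 * L2 (N : ℝ)) ≤ κ / L2 (((N ^ (q + 1) : ℕ) : ℝ) + BC) := by gcongr
  calc κ / 4 * (N / L2 (N : ℝ)) = κ / (2 * L2 (N : ℝ)) / 2 * N := by
        field_simp
        ring
    _ ≤ _ := by gcongr

end Pool.Agent.Results.MP_e3f158_nt.ZeroTypesRealMultiples
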